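import Pool.Agent.H751R2.LHY.Defs

open MeasureTheory UnitAddTorus
open scoped ComplexConjugate ENNReal

namespace Pool.Agent.H751R2.LHY

noncomputable section

/-! ## S : sign averages -/
section S
variable {K : Type*} [Fintype K] [DecidableEq K]

theorem sign_sg_mul_self (b : Bool) : sg b * sg b = 1 := by
  cases b <;> simp [sg]

theorem sign_sg_not (b : Bool) : sg (!b) = - sg b := by
  cases b <;> simp [sg]

/-- monomial in the signs -/
def sgChi (T : Finset K) (η : K → Bool) : ℝ := ∏ k ∈ T, sg (η k)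

/-- toggle membership -/
def sgTog (T : Finset K) (k : K) : Finset K := if k ∈ T then T.erase k else insert k T

omit [Fintype K] in
theorem sgChi_tog (T : Finset K) (k : K) (η : K → Bool) :
    sg (η k) * sgChi T η = sgChi (sgTog T k) η := by
  unfold sgTog sgChi
  split_ifs with h
  · rw [← Finset.mul_prod_erase T _ h, ← mul_assoc, sign_sg_mul_self, one_mul]
  · rw [Finset.prod_insert h]

/-- moments -/
def sgMom (h : K → ℝ) (T : Finset K) (n : ℕ) : ℝ := ∑ η : K → Bool, sgChi T η * zed h η ^ n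

theorem sgMom_succ (h : K → ℝ) (T : Finset K) (n : ℕ) :
    sgMom h T (n + 1) = sgMom h T n + ∑ k, h k * sgMom h (sgTog T k) n := by
  unfold sgMom
  have : ∀ η : K → Bool, sgChi T η * zed h η ^ (n + 1) =
      sgChi T η * zed h η ^ n + ∑ k, h k * (sgChi (sgTog T k) η * zed h η ^ n) := by
    intro η
    have h1 : ∑ k, h k * (sgChi (sgTog T k) η * zed h η ^ n) =
        sgChi T η * zed h η ^ n * ∑ k, h k * sg (η k) := by
      rw [Finset.mul_sum]
      refine Finset.sum_congr rfl fun k _ => ?_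
      rw [← sgChi_tog]
      ring
    rw [h1, pow_succ]
    conv_lhs => rw [show sgChi T η * (zed h η ^ n * zed h η) =
      sgChi T η * zed h η ^ n * (1 + ∑ k, h k * sg (η k)) by unfold zed; ring]
    ring
  simp_rw [this]
  rw [Finset.sum_add_distrib, Finset.sum_comm]
  simp_rw [Finset.mul_sum]

theorem sgMom_zero (h : K → ℝ) (T : Finset K) :
    sgMom h T 0 = ∏ k : K, (if k ∈ T then (0 : ℝ) else 2) := by
  unfold sgMom sgChi
  have h1 : ∀ η : K → Bool, (∏ k ∈ T, sg (η k)) * zed h η ^ 0 =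
      ∏ k : K, (if k ∈ T then sg (η k) else 1) := by
    intro η
    rw [pow_zero, mul_one, Finset.prod_ite_mem, Finset.univ_inter]
  simp_rw [h1]
  have h2 := Finset.prod_univ_sum (fun _ : K => (Finset.univ : Finset Bool))
    (fun (k : K) (b : Bool) => (if k ∈ T then sg b else (1 : ℝ)))
  rw [Fintype.piFinset_univ] at h2
  rw [← h2]
  refine Finset.prod_congr rfl fun k _ => ?_
  split_ifs <;> simp [sg]

theorem sgMom_nonneg {h : K → ℝ} (hh : ∀ κ, 0 ≤ h κ) (n : ℕ) :
    ∀ T : Finset K, 0 ≤ sgMom h T n := by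
  induction n with
  | zero =>
    intro T
    rw [sgMom_zero]
    exact Finset.prod_nonneg fun k _ => by split_ifs <;> norm_num
  | succ n ih =>
    intro T
    rw [sgMom_succ]
    exact add_nonneg (ih T) (Finset.sum_nonneg fun k _ => mul_nonneg (hh k) (ih _))

theorem sgMom_le_succ {h : K → ℝ} (hh : ∀ κ, 0 ≤ h κ) (n : ℕ) (T : Finset K) :
    sgMom h T n ≤ sgMom h T (n + 1) := by
  rw [sgMom_succ]
  have := Finset.sum_nonneg fun (k : K) (_ : k ∈ Finset.univ) =>
    mul_nonneg (hh k) (sgMom_nonneg hh n (sgTog T k))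
  linarith

theorem sgMom_mono {h : K → ℝ} (hh : ∀ κ, 0 ≤ h κ) (T : Finset K) :
    Monotone (sgMom h T) :=
  monotone_nat_of_le_succ fun n => sgMom_le_succ hh n T

theorem sgMom_insert_le {h : K → ℝ} (hh : ∀ κ, 0 ≤ h κ) (k : K) (n : ℕ) :
    ∀ T : Finset K, k ∉ T → sgMom h (insert k T) n ≤ n * h k * sgMom h T n := by
  induction n with
  | zero =>
    intro T hk
    rw [sgMom_zero, sgMom_zero, Finset.prod_eq_zero (Finset.mem_univ k) (by simp)]
    simp
  | succ n ih =>
    intro T hk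
    have e1 : sgMom h (insert k T) (n + 1) = sgMom h (insert k T) n +
        (h k * sgMom h T n + ∑ j ∈ Finset.univ.erase k,
          h j * sgMom h (insert k (sgTog T j)) n) := by
      rw [sgMom_succ, ← Finset.add_sum_erase Finset.univ _ (Finset.mem_univ k)]
      congr 2
      · congr 2
        simp [sgTog, Finset.erase_insert hk]
      · refine Finset.sum_congr rfl fun j hj => ?_
        have hjk : j ≠ k := Finset.ne_of_mem_erase hj
        congr 2
        unfold sgTog
        by_cases hjT : j ∈ T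
        · rw [if_pos (Finset.mem_insert_of_mem hjT), if_pos hjT,
            Finset.erase_insert_of_ne hjk.symm]
        · rw [if_neg (by simp [hjk, hjT]), if_neg hjT, Finset.insert_comm]
    have e2 : sgMom h T (n + 1) = sgMom h T n +
        (h k * sgMom h (sgTog T k) n + ∑ j ∈ Finset.univ.erase k, h j * sgMom h (sgTog T j) n) := by
      rw [sgMom_succ, ← Finset.add_sum_erase Finset.univ _ (Finset.mem_univ k)]
    have h1 := ih T hk
    have h2 : ∑ j ∈ Finset.univ.erase k, h j * sgMom h (insert k (sgTog T j)) n ≤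
        ∑ j ∈ Finset.univ.erase k, n * h k * (h j * sgMom h (sgTog T j) n) := by
      refine Finset.sum_le_sum fun j hj => ?_
      have hjk : j ≠ k := Finset.ne_of_mem_erase hj
      have hk' : k ∉ sgTog T j := by
        unfold sgTog
        split_ifs
        · exact fun hc => hk (Finset.mem_of_mem_erase hc)
        · simp [hjk.symm, hk]
      have := mul_le_mul_of_nonneg_left (ih _ hk') (hh j)
      nlinarith
    rw [← Finset.mul_sum] at h2
    have h3 := sgMom_le_succ hh n T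
    have h4 : 0 ≤ h k * sgMom h (sgTog T k) n := mul_nonneg (hh k) (sgMom_nonneg hh n _)
    have h5 : 0 ≤ (n : ℝ) * h k := mul_nonneg (Nat.cast_nonneg n) (hh k)
    have h6 := mul_nonneg h5 h4
    have h7 := mul_le_mul_of_nonneg_left h3 (hh k)
    rw [e1]
    push_cast
    calc sgMom h (insert k T) n + (h k * sgMom h T n + ∑ j ∈ Finset.univ.erase k,
          h j * sgMom h (insert k (sgTog T j)) n)
        ≤ n * h k * sgMom h T n + (h k * sgMom h T (n + 1) +
          n * h k * ∑ j ∈ Finset.univ.erase k, h j * sgMom h (sgTog T j) n) := by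
          linarith
      _ ≤ n * h k * sgMom h T (n + 1) + h k * sgMom h T (n + 1) := by
          rw [e2]
          nlinarith
      _ = ((n : ℝ) + 1) * h k * sgMom h T (n + 1) := by ring

theorem sgMom_empty (h : K → ℝ) (n : ℕ) : ∑ η : K → Bool, zed h η ^ n = sgMom h ∅ n := by
  simp [sgMom, sgChi]

theorem sgMom_single (h : K → ℝ) (n : ℕ) (κ : K) :
    ∑ η : K → Bool, sg (η κ) * zed h η ^ n = sgMom h {κ} n := by
  simp [sgMom, sgChi]

theorem sgMom_pair (h : K → ℝ) (n : ℕ) {κ κ' : K} (hne : κ ≠ κ') :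
    ∑ η : K → Bool, sg (η κ) * sg (η κ') * zed h η ^ n = sgMom h {κ, κ'} n := by
  unfold sgMom sgChi
  simp_rw [Finset.prod_pair hne]

theorem zed_pos (h : K → ℝ) (hh : ∀ κ, 0 ≤ h κ) (n : ℕ) : 0 < ∑ η : K → Bool, zed h η ^ n := by
  rw [sgMom_empty]
  refine lt_of_lt_of_le ?_ (sgMom_mono hh ∅ (Nat.zero_le n))
  rw [sgMom_zero]
  exact Finset.prod_pos fun k _ => by simp

theorem zed_mono (h : K → ℝ) (hh : ∀ κ, 0 ≤ h κ) {m n : ℕ} (hmn : m ≤ n) :
    ∑ η : K → Bool, zed h η ^ m ≤ ∑ η : K → Bool, zed h η ^ n := by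
  rw [sgMom_empty, sgMom_empty]
  exact sgMom_mono hh ∅ hmn

theorem zed_one (h : K → ℝ) (hh : ∀ κ, 0 ≤ h κ) (n : ℕ) (κ : K) :
    0 ≤ ∑ η : K → Bool, sg (η κ) * zed h η ^ n ∧
    ∑ η : K → Bool, sg (η κ) * zed h η ^ n ≤ n * h κ * ∑ η : K → Bool, zed h η ^ n := by
  rw [sgMom_single, sgMom_empty]
  exact ⟨sgMom_nonneg hh n _, sgMom_insert_le hh κ n ∅ (by simp)⟩

theorem zed_two (h : K → ℝ) (hh : ∀ κ, 0 ≤ h κ) (n : ℕ) {κ κ' : K} (hne : κ ≠ κ') :
    0 ≤ ∑ η : K → Bool, sg (η κ) * sg (η κ') * zed h η ^ n ∧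
    ∑ η : K → Bool, sg (η κ) * sg (η κ') * zed h η ^ n ≤
      (n * h κ) * (n * h κ') * ∑ η : K → Bool, zed h η ^ n := by
  rw [sgMom_pair h n hne, sgMom_empty]
  refine ⟨sgMom_nonneg hh n _, ?_⟩
  have h1 : sgMom h {κ, κ'} n ≤ n * h κ * sgMom h {κ'} n :=
    sgMom_insert_le hh κ n {κ'} (by simpa using hne)
  have h2 : sgMom h {κ'} n ≤ n * h κ' * sgMom h ∅ n := sgMom_insert_le hh κ' n ∅ (by simp)
  have h3 : 0 ≤ (n : ℝ) * h κ := mul_nonneg (Nat.cast_nonneg n) (hh κ)
  calc sgMom h {κ, κ'} n ≤ n * h κ * sgMom h {κ'} n := h1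
    _ ≤ n * h κ * (n * h κ' * sgMom h ∅ n) := mul_le_mul_of_nonneg_left h2 h3
    _ = _ := by ring

/-! ### fourth moments -/

/-- flipping one sign -/
def sgFlip (a : K) : (K → Bool) ≃ (K → Bool) :=
  Function.Involutive.toPerm (fun ξ => Function.update ξ a (!ξ a)) (by
    intro ξ
    ext k
    by_cases h : k = a
    · subst h; simp
    · simp [h])

theorem sum_sg_flip (a : K) (R : (K → Bool) → ℝ)
    (hR : ∀ ξ, R (Function.update ξ a (!ξ a)) = R ξ) : ∑ ξ : K → Bool, sg (ξ a) * R ξ = 0 := by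
  have h : ∑ ξ : K → Bool, sg (ξ a) * R ξ = ∑ ξ : K → Bool, -(sg (ξ a) * R ξ) := by
    rw [← Equiv.sum_comp (sgFlip a)]
    refine Finset.sum_congr rfl fun ξ _ => ?_
    have h1 : sgFlip a ξ = Function.update ξ a (!ξ a) := rfl
    rw [h1, hR, Function.update_self, sign_sg_not]
    ring
  rw [Finset.sum_neg_distrib] at h
  linarith

theorem sum_sg_two (c d : K) : ∑ ξ : K → Bool, sg (ξ c) * sg (ξ d) =
    2 ^ Fintype.card K * (if c = d then 1 else 0) := by
  by_cases h : c = d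
  · subst h
    simp [sign_sg_mul_self]
  · rw [if_neg h, mul_zero]
    exact sum_sg_flip c _ fun ξ => by rw [Function.update_of_ne (Ne.symm h)]

theorem sum_sg_four (a b c d : K) : ∑ ξ : K → Bool, sg (ξ a) * sg (ξ b) * sg (ξ c) * sg (ξ d) =
    2 ^ Fintype.card K * ((if a = b then 1 else 0) * (if c = d then 1 else 0)
      + (if a = c then 1 else 0) * (if b = d then 1 else 0)
      + (if a = d then 1 else 0) * (if b = c then 1 else 0)
      - 2 * ((if a = b then 1 else 0) * ((if a = c then 1 else 0) * (if a = d then 1 else 0)))) := by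
  by_cases hab : a = b
  · subst hab
    have : ∀ ξ : K → Bool, sg (ξ a) * sg (ξ a) * sg (ξ c) * sg (ξ d) = sg (ξ c) * sg (ξ d) := by
      intro ξ; rw [sign_sg_mul_self, one_mul]
    simp_rw [this]
    rw [sum_sg_two]
    by_cases h1 : a = c <;> by_cases h2 : a = d
    · subst h1; subst h2; simp; norm_num
    · subst h1; simp [h2]
    · subst h2; simp [h1, Ne.symm h1]
    · simp [h1, h2]
  · by_cases hac : a = c
    · subst hac
      have : ∀ ξ : K → Bool, sg (ξ a) * sg (ξ b) * sg (ξ a) * sg (ξ d) = sg (ξ b) * sg (ξ d) := by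
        intro ξ
        calc sg (ξ a) * sg (ξ b) * sg (ξ a) * sg (ξ d)
            = (sg (ξ a) * sg (ξ a)) * (sg (ξ b) * sg (ξ d)) := by ring
          _ = _ := by rw [sign_sg_mul_self, one_mul]
      simp_rw [this]
      rw [sum_sg_two]
      simp [hab, Ne.symm hab]
    · by_cases had : a = d
      · subst had
        have : ∀ ξ : K → Bool, sg (ξ a) * sg (ξ b) * sg (ξ c) * sg (ξ a) =
            sg (ξ b) * sg (ξ c) := by
          intro ξ
          calc sg (ξ a) * sg (ξ b) * sg (ξ c) * sg (ξ a)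
              = (sg (ξ a) * sg (ξ a)) * (sg (ξ b) * sg (ξ c)) := by ring
            _ = _ := by rw [sign_sg_mul_self, one_mul]
        simp_rw [this]
        rw [sum_sg_two]
        simp [hab, hac]
      · simp only [if_neg hab, if_neg hac, if_neg had]
        have h0 := sum_sg_flip a (fun ξ => sg (ξ b) * sg (ξ c) * sg (ξ d)) (fun ξ => by
          rw [Function.update_of_ne (Ne.symm hab), Function.update_of_ne (Ne.symm hac),
            Function.update_of_ne (Ne.symm had)])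
        simp only [zero_mul, mul_zero, add_zero, sub_zero]
        rw [← h0]
        exact Finset.sum_congr rfl fun ξ _ => by ring

/-- linear form in the signs -/
def sgLin (α : K → ℂ) (ξ : K → Bool) : ℂ := ∑ κ, α κ * (sg (ξ κ) : ℂ)

omit [DecidableEq K] in
theorem sgLin_flip_all (α : K → ℂ) (ξ : K → Bool) : sgLin α (fun k => !ξ k) = - sgLin α ξ := by
  unfold sgLin
  rw [← Finset.sum_neg_distrib]
  refine Finset.sum_congr rfl fun κ _ => ?_
  rw [sign_sg_not]
  push_cast
  ring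

/-- flipping all signs -/
def sgFlipAll : (K → Bool) ≃ (K → Bool) :=
  Function.Involutive.toPerm (fun ξ k => !ξ k) (by intro ξ; ext k; simp)

theorem sum_odd (F : (K → Bool) → ℂ) (hF : ∀ ξ, F (fun k => !ξ k) = - F ξ) :
    ∑ ξ : K → Bool, F ξ = 0 := by
  have h : ∑ ξ : K → Bool, F ξ = ∑ ξ : K → Bool, -F ξ := by
    rw [← Equiv.sum_comp (sgFlipAll (K := K))]
    exact Finset.sum_congr rfl fun ξ _ => hF ξ
  rw [Finset.sum_neg_distrib] at h
  have h2 : (2 : ℂ) * ∑ ξ : K → Bool, F ξ = 0 := by linear_combination h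
  simpa using h2

theorem sum_lin_two (α β : K → ℂ) : ∑ ξ : K → Bool, sgLin α ξ * sgLin β ξ =
    2 ^ Fintype.card K * ∑ κ, α κ * β κ := by
  unfold sgLin
  simp_rw [Finset.sum_mul_sum]
  rw [Finset.sum_comm]
  rw [Finset.mul_sum]
  refine Finset.sum_congr rfl fun a _ => ?_
  rw [Finset.sum_comm]
  have h1 : ∀ b : K, ∑ ξ : K → Bool, α a * (sg (ξ a) : ℂ) * (β b * (sg (ξ b) : ℂ)) =
      α a * β b * (2 ^ Fintype.card K * (if a = b then 1 else 0)) := by
    intro b
    have h2 : (∑ ξ : K → Bool, (sg (ξ a) : ℂ) * (sg (ξ b) : ℂ)) =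
        2 ^ Fintype.card K * (if a = b then 1 else 0) := by
      have h3 : ((∑ ξ : K → Bool, sg (ξ a) * sg (ξ b) : ℝ) : ℂ) =
          ((2 ^ Fintype.card K * (if a = b then 1 else 0) : ℝ) : ℂ) := by rw [sum_sg_two]
      push_cast at h3
      rw [h3]
      split_ifs <;> simp
    rw [← h2, Finset.mul_sum]
    exact Finset.sum_congr rfl fun ξ _ => by ring
  simp_rw [h1]
  simp only [mul_ite, mul_one, mul_zero, Finset.sum_ite_eq, Finset.mem_univ, if_true]
  ring

theorem sum_lin_four (α β γ δ : K → ℂ) :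
    ∑ ξ : K → Bool, sgLin α ξ * sgLin β ξ * sgLin γ ξ * sgLin δ ξ =
    2 ^ Fintype.card K * ((∑ κ, α κ * β κ) * (∑ κ, γ κ * δ κ)
      + (∑ κ, α κ * γ κ) * (∑ κ, β κ * δ κ)
      + (∑ κ, α κ * δ κ) * (∑ κ, β κ * γ κ) - 2 * ∑ κ, α κ * β κ * γ κ * δ κ) := by
  have h1 : ∀ ξ : K → Bool, sgLin α ξ * sgLin β ξ * sgLin γ ξ * sgLin δ ξ =
      ∑ a, ∑ b, ∑ c, ∑ d, (α a * β b * γ c * δ d) *
        ((sg (ξ a) * sg (ξ b) * sg (ξ c) * sg (ξ d) : ℝ) : ℂ) := by
    intro ξ
    unfold sgLin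
    rw [mul_assoc (_ * _), Finset.sum_mul_sum, Finset.sum_mul]
    refine Finset.sum_congr rfl fun a _ => ?_
    rw [Finset.sum_mul]
    refine Finset.sum_congr rfl fun b _ => ?_
    rw [Finset.sum_mul_sum, Finset.mul_sum]
    refine Finset.sum_congr rfl fun c _ => ?_
    rw [Finset.mul_sum]
    refine Finset.sum_congr rfl fun d _ => ?_
    push_cast
    ring
  simp_rw [h1]
  rw [Finset.sum_comm]
  have h2 : ∀ a : K, (∑ ξ : K → Bool, ∑ b, ∑ c, ∑ d, (α a * β b * γ c * δ d) *
        ((sg (ξ a) * sg (ξ b) * sg (ξ c) * sg (ξ d) : ℝ) : ℂ)) =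
      ∑ b, ∑ c, ∑ d, (α a * β b * γ c * δ d) * (2 ^ Fintype.card K *
        ((if a = b then 1 else 0) * (if c = d then 1 else 0)
      + (if a = c then 1 else 0) * (if b = d then 1 else 0)
      + (if a = d then 1 else 0) * (if b = c then 1 else 0)
      - 2 * ((if a = b then 1 else 0) * ((if a = c then 1 else 0) *
        (if a = d then 1 else 0))))) := by
    intro a
    rw [Finset.sum_comm]
    refine Finset.sum_congr rfl fun b _ => ?_
    rw [Finset.sum_comm]
    refine Finset.sum_congr rfl fun c _ => ?_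
    rw [Finset.sum_comm]
    refine Finset.sum_congr rfl fun d _ => ?_
    rw [← Finset.mul_sum]
    congr 1
    rw [← Complex.ofReal_sum, sum_sg_four]
    have hc : ∀ p q : K, ((if p = q then (1 : ℝ) else 0 : ℝ) : ℂ) = if p = q then (1 : ℂ) else 0 := by
      intro p q
      split_ifs <;> simp
    push_cast
    simp only [hc]
  simp_rw [h2]
  have h3 : ∀ a b c d : K, (α a * β b * γ c * δ d) * (2 ^ Fintype.card K *
        ((if a = b then (1 : ℂ) else 0) * (if c = d then 1 else 0)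
      + (if a = c then 1 else 0) * (if b = d then 1 else 0)
      + (if a = d then 1 else 0) * (if b = c then 1 else 0)
      - 2 * ((if a = b then 1 else 0) * ((if a = c then 1 else 0) *
        (if a = d then 1 else 0))))) =
      2 ^ Fintype.card K * ((if a = b then α a * β b else 0) * (if c = d then γ c * δ d else 0))
      + 2 ^ Fintype.card K * ((if a = c then α a * γ c else 0) * (if b = d then β b * δ d else 0))
      + 2 ^ Fintype.card K * ((if a = d then α a * δ d else 0) * (if b = c then β b * γ c else 0))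
      - 2 ^ Fintype.card K * (2 * (if a = b then (if a = c then (if a = d then
          α a * β b * γ c * δ d else 0) else 0) else 0)) := by
    intro a b c d
    split_ifs <;> ring
  simp_rw [h3]
  have e1 : ∑ a : K, ∑ b : K, ∑ c : K, ∑ d : K, (2 : ℂ) ^ Fintype.card K *
      ((if a = b then α a * β b else 0) * (if c = d then γ c * δ d else 0)) =
      2 ^ Fintype.card K * ((∑ κ, α κ * β κ) * (∑ κ, γ κ * δ κ)) := by
    rw [Finset.sum_mul_sum, Finset.mul_sum]
    refine Finset.sum_congr rfl fun a _ => ?_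
    rw [Finset.sum_eq_single a (by intro b _ hb; simp [Ne.symm hb]) (by simp), Finset.mul_sum]
    refine Finset.sum_congr rfl fun c _ => ?_
    rw [Finset.sum_eq_single c (by intro b _ hb; simp [Ne.symm hb]) (by simp)]
    simp
  have e2 : ∑ a : K, ∑ b : K, ∑ c : K, ∑ d : K, (2 : ℂ) ^ Fintype.card K *
      ((if a = c then α a * γ c else 0) * (if b = d then β b * δ d else 0)) =
      2 ^ Fintype.card K * ((∑ κ, α κ * γ κ) * (∑ κ, β κ * δ κ)) := by
    rw [Finset.sum_mul_sum, Finset.mul_sum]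
    refine Finset.sum_congr rfl fun a _ => ?_
    rw [Finset.mul_sum]
    refine Finset.sum_congr rfl fun b _ => ?_
    rw [Finset.sum_eq_single a (by intro c _ hc; simp [Ne.symm hc]) (by simp)]
    rw [Finset.sum_eq_single b (by intro d _ hd; simp [Ne.symm hd]) (by simp)]
    simp
  have e3 : ∑ a : K, ∑ b : K, ∑ c : K, ∑ d : K, (2 : ℂ) ^ Fintype.card K *
      ((if a = d then α a * δ d else 0) * (if b = c then β b * γ c else 0)) =
      2 ^ Fintype.card K * ((∑ κ, α κ * δ κ) * (∑ κ, β κ * γ κ)) := by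
    rw [Finset.sum_mul_sum, Finset.mul_sum]
    refine Finset.sum_congr rfl fun a _ => ?_
    rw [Finset.mul_sum]
    refine Finset.sum_congr rfl fun b _ => ?_
    rw [Finset.sum_eq_single b (by intro c _ hc; simp [Ne.symm hc]) (by simp)]
    rw [Finset.sum_eq_single a (by intro d _ hd; simp [Ne.symm hd]) (by simp)]
    simp
  have e4 : ∑ a : K, ∑ b : K, ∑ c : K, ∑ d : K, (2 : ℂ) ^ Fintype.card K *
      (2 * (if a = b then (if a = c then (if a = d then
          α a * β b * γ c * δ d else 0) else 0) else 0)) =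
      2 ^ Fintype.card K * (2 * ∑ κ, α κ * β κ * γ κ * δ κ) := by
    rw [Finset.mul_sum, Finset.mul_sum]
    refine Finset.sum_congr rfl fun a _ => ?_
    rw [Finset.sum_eq_single a (by intro b _ hb; simp [Ne.symm hb]) (by simp),
      Finset.sum_eq_single a (by intro b _ hb; simp [Ne.symm hb]) (by simp),
      Finset.sum_eq_single a (by intro b _ hb; simp [Ne.symm hb]) (by simp)]
    simp
  simp only [Finset.sum_add_distrib, Finset.sum_sub_distrib]
  rw [e1, e2, e3, e4]
  ring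

/-- fourth moment identity for random signs -/
theorem four (α β γ δ : K → ℂ) :
    ∑ ξ : K → Bool, (1 + ∑ κ, α κ * (sg (ξ κ) : ℂ)) * (1 + ∑ κ, β κ * (sg (ξ κ) : ℂ)) *
      (1 + ∑ κ, γ κ * (sg (ξ κ) : ℂ)) * (1 + ∑ κ, δ κ * (sg (ξ κ) : ℂ)) =
    2 ^ Fintype.card K * (1 + (∑ κ, α κ * β κ) + (∑ κ, α κ * γ κ) + (∑ κ, α κ * δ κ)
      + (∑ κ, β κ * γ κ) + (∑ κ, β κ * δ κ) + (∑ κ, γ κ * δ κ)
      + (∑ κ, α κ * β κ) * (∑ κ, γ κ * δ κ) + (∑ κ, α κ * γ κ) * (∑ κ, β κ * δ κ)
      + (∑ κ, α κ * δ κ) * (∑ κ, β κ * γ κ) - 2 * ∑ κ, α κ * β κ * γ κ * δ κ) := by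
  have h0 : ∀ ξ : K → Bool, (1 + ∑ κ, α κ * (sg (ξ κ) : ℂ)) * (1 + ∑ κ, β κ * (sg (ξ κ) : ℂ)) *
      (1 + ∑ κ, γ κ * (sg (ξ κ) : ℂ)) * (1 + ∑ κ, δ κ * (sg (ξ κ) : ℂ)) =
      1 + (sgLin α ξ + sgLin β ξ + sgLin γ ξ + sgLin δ ξ)
      + (sgLin α ξ * sgLin β ξ + sgLin α ξ * sgLin γ ξ + sgLin α ξ * sgLin δ ξ
        + sgLin β ξ * sgLin γ ξ + sgLin β ξ * sgLin δ ξ + sgLin γ ξ * sgLin δ ξ)
      + (sgLin α ξ * sgLin β ξ * sgLin γ ξ + sgLin α ξ * sgLin β ξ * sgLin δ ξ
        + sgLin α ξ * sgLin γ ξ * sgLin δ ξ + sgLin β ξ * sgLin γ ξ * sgLin δ ξ)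
      + sgLin α ξ * sgLin β ξ * sgLin γ ξ * sgLin δ ξ := by
    intro ξ
    unfold sgLin
    ring
  simp_rw [h0]
  rw [Finset.sum_add_distrib, Finset.sum_add_distrib, Finset.sum_add_distrib,
    Finset.sum_add_distrib]
  have o1 : ∑ ξ : K → Bool, (sgLin α ξ + sgLin β ξ + sgLin γ ξ + sgLin δ ξ) = 0 :=
    sum_odd _ fun ξ => by simp only [sgLin_flip_all]; ring
  have o3 : ∑ ξ : K → Bool, (sgLin α ξ * sgLin β ξ * sgLin γ ξ + sgLin α ξ * sgLin β ξ * sgLin δ ξ
        + sgLin α ξ * sgLin γ ξ * sgLin δ ξ + sgLin β ξ * sgLin γ ξ * sgLin δ ξ) = 0 :=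
    sum_odd _ fun ξ => by simp only [sgLin_flip_all]; ring
  rw [o1, o3, sum_lin_four]
  simp only [Finset.sum_add_distrib, sum_lin_two]
  have h1 : (∑ _ξ : K → Bool, (1 : ℂ)) = 2 ^ Fintype.card K := by simp
  rw [h1]
  ring

end S

end

end Pool.Agent.H751R2.LHY
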